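import Pool.Agent.Helper92.W.St
import Pool.Agent.Helper97.WF.Lln

/-! Lemma W: law of large numbers for nested partitions. -/

set_option autoImplicit false

namespace Pool.Agent.Helper92.W

open Finset Pool.Agent.Helper69.RK Pool.Agent.Helper61.GL Pool.Agent.Helper46.WF Pool.Agent.Helper97.WF

theorem srp_eq_sw {Ω κ : Type} [Fintype Ω] (μ : Ω → ℝ) (cl : ℕ → Ω → κ) (hc : Ref μ cl) (ρ l : ℕ) (ω : Ω)
    (hω : μ ω ≠ 0) : srp μ (cl (l + ρ)) (cl l) ω = sw μ cl ρ l ω := by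
  unfold srp sw Su
  have e : pr μ (fun ω'' => (cl (l + ρ) ω'', cl l ω'')) ω = pr μ (cl (l + ρ)) ω := by
    apply e1_pr_congr
    intro ω'' h2
    rw [Prod.mk.injEq]
    exact ⟨fun h => h.1, fun h => ⟨h, hc.le (Nat.le_add_right _ _) h2 hω h⟩⟩
  rw [e]
  ring

theorem LH_eq_ew {Ω κ : Type} [Fintype Ω] (μ : Ω → ℝ) (hμ : ∀ ω, 0 ≤ μ ω) (cl : ℕ → Ω → κ) (hc : Ref μ cl)
    (ρ l : ℕ) (ω : Ω) : LH μ (cl (l + ρ)) (cl l) ω = ew μ cl ρ l ω :=
  (ew_eq_LH μ hμ cl (cl (l + ρ)) ρ l ω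
    (fun _ _ a b => ⟨fun h => ⟨h, hc.le (Nat.le_add_right _ _) a b h⟩, fun h => h.1⟩)).symm

theorem st_LLN : ST_LLN := by
  classical
  intro K ρ hρ
  refine ⟨2 * ρ * (5 * 2 ^ K), ?_⟩
  intro Ω κ _ μ cl hμ hm href hcard N S hS
  have hc : Ref μ cl := fun l ω ω' _ _ h => href l ω ω' h
  have hN : Nb μ cl (2 ^ K) ρ := by
    apply Nb_card μ hμ cl hc
    intro l ω _
    refine ⟨(univ.filter (fun ω' => cl l ω' = cl l ω)).image (cl (l + ρ)), ?_, ?_⟩
    · have h := hcard l ω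
      have h' : (((univ.filter (fun ω' => cl l ω' = cl l ω)).image (cl (l + ρ))).card : ℝ) ≤ ((2 ^ K : ℕ) : ℝ) := by
        exact_mod_cast (by convert h)
      simpa using h'
    · intro ω' _ h
      exact mem_image_of_mem _ (mem_filter.mpr ⟨mem_univ _, h⟩)
  have h1 := var_sumS μ hμ hm cl hc (2 ^ K) (by positivity) ρ hN S
  have h2 : (S.card : ℝ) ≤ N := by
    have := card_le_card hS
    rw [card_range] at this
    exact_mod_cast this
  calc _ = ∑ ω, μ ω * (∑ l ∈ S, dw μ cl ρ l ω) ^ 2 := by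
        apply sum_congr rfl
        intro ω _
        by_cases h0 : μ ω = 0
        · rw [h0, zero_mul, zero_mul]
        · congr 2
          apply sum_congr rfl
          intro l _
          rw [srp_eq_sw μ cl hc ρ l ω h0, LH_eq_ew μ hμ cl hc ρ l ω]
          rfl
    _ ≤ _ := h1
    _ ≤ 2 * ρ * (5 * 2 ^ K) * (N + 1) := by
        have : (0 : ℝ) ≤ 2 * ρ * (5 * 2 ^ K) := by positivity
        nlinarith

end Pool.Agent.Helper92.W
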