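import Pool.Agent.Helper19.W.SLO
import Pool.Agent.Helper56.W.DEN
import Pool.Agent.Helper97.W.LLN

/-! Lemma W: prefix sums of the local entropies along most paths. -/

set_option autoImplicit false

namespace Pool.Agent.Helper92.W

open Finset Pool.Agent.Helper69.RK Pool.Agent.Helper61.GL Pool.Agent.Helper46.WF Pool.Agent.Helper97.WF

section

variable {Ω α β γ : Type} [Fintype Ω]

theorem pre_le_two (y : ℝ) : y ≤ 2 ^ y := by
  rcases le_total y 0 with h | h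
  · exact h.trans (by positivity)
  · have h1 : (2 : ℝ) ^ y = (2 : ℝ) ^ (y / 2) * (2 : ℝ) ^ (y / 2) := by
      rw [← Real.rpow_add (by norm_num)]
      congr 1
      ring
    have h2 : 1 + y / 2 * Real.log 2 ≤ (2 : ℝ) ^ (y / 2) := by
      rw [Real.rpow_def_of_pos (by norm_num), mul_comm (Real.log 2)]
      have := Real.add_one_le_exp (y / 2 * Real.log 2)
      linarith
    have h3 := Real.log_two_gt_d9
    have h4 : y / 2 * 0.69 ≤ y / 2 * Real.log 2 := mul_le_mul_of_nonneg_left (by linarith) (by linarith)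
    rw [h1]
    have h5 : (1 + y / 2 * 0.69) * (1 + y / 2 * 0.69) ≤ (2 : ℝ) ^ (y / 2) * (2 : ℝ) ^ (y / 2) :=
      mul_self_le_mul_self (by positivity) (by linarith)
    nlinarith [sq_nonneg (1 - y / 2 * 0.69)]

theorem pre_Su (μ : Ω → ℝ) (hμ : ∀ ω, 0 ≤ μ ω) (f : Ω → α) (ω : Ω) (hω : μ ω ≠ 0) :
    (2 : ℝ) ^ Su μ f ω = 1 / pr μ f ω := by
  have hp := e1_pr_pos μ f hμ ω hω
  unfold Su
  rw [Real.rpow_neg (by norm_num), Real.rpow_logb (by norm_num) (by norm_num) hp, one_div]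

theorem pre_exp (μ : Ω → ℝ) (hμ : ∀ ω, 0 ≤ μ ω) (f : Ω → α) (S : Finset α) (hS : ∀ ω, μ ω ≠ 0 → f ω ∈ S) :
    ∑ ω, μ ω * (1 / pr μ f ω) ≤ S.card := by
  classical
  have h := sum_div_pr_le μ hμ f S (fun _ => 1) (fun _ => zero_le_one) hS
  rwa [sum_const, nsmul_eq_mul, mul_one] at h

theorem pre_Hh (μ : Ω → ℝ) (hm : ∑ ω, μ ω = 1) (f : Ω → α) : Hh μ f = ∑ ω, μ ω * Su μ f ω := by
  rw [Hh_eq μ hm f, ← sum_neg_distrib]
  exact sum_congr rfl (fun ω _ => by unfold Su; ring)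

/-- lower tail of the surprisal of a variable of nearly full entropy -/
theorem pre_low (μ : Ω → ℝ) (hμ : ∀ ω, 0 ≤ μ ω) (hm : ∑ ω, μ ω = 1) (f : Ω → α) (S : Finset α)
    (hS : ∀ ω, μ ω ≠ 0 → f ω ∈ S) (K ξ t : ℝ) (hK : (S.card : ℝ) ≤ 2 ^ K) (ht : 0 < t) (hH : K - ξ ≤ Hh μ f) :
    Pw μ (fun ω => Su μ f ω < K - t) ≤ (ξ + 1) / t := by
  have h0 : (0 : ℝ) < 2 ^ (-K) := Real.rpow_pos_of_pos (by norm_num) _
  have h1 : ∑ ω, μ ω * (K - Su μ f ω + 2 ^ (-K) * (1 / pr μ f ω)) ≤ ξ + 1 := by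
    have e : ∀ ω, μ ω * (K - Su μ f ω + 2 ^ (-K) * (1 / pr μ f ω)) =
        K * μ ω - μ ω * Su μ f ω + 2 ^ (-K) * (μ ω * (1 / pr μ f ω)) := fun ω => by ring
    rw [sum_congr rfl (fun ω _ => e ω), sum_add_distrib, sum_sub_distrib, ← mul_sum, ← mul_sum, hm, ← pre_Hh μ hm f]
    have h2 := pre_exp μ hμ f S hS
    have h3 : 2 ^ (-K) * ∑ ω, μ ω * (1 / pr μ f ω) ≤ 2 ^ (-K) * 2 ^ K :=
      mul_le_mul_of_nonneg_left (h2.trans hK) h0.le
    rw [← Real.rpow_add (by norm_num), neg_add_cancel, Real.rpow_zero] at h3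
    linarith
  refine le_trans (Pw_mono μ hμ ?_) (Pw_markov μ hμ (fun ω => K - Su μ f ω + 2 ^ (-K) * (1 / pr μ f ω)) ?_ ht h1)
  · intro ω hω h
    have hp := e1_pr_pos μ f hμ ω hω
    have : 0 ≤ 2 ^ (-K) * (1 / pr μ f ω) := by positivity
    linarith
  · intro ω hω
    have h2 := pre_le_two (Su μ f ω - K)
    rw [sub_eq_add_neg, Real.rpow_add (by norm_num), pre_Su μ hμ f ω hω] at h2
    linarith

/-- upper tail -/
theorem pre_up (μ : Ω → ℝ) (hμ : ∀ ω, 0 ≤ μ ω) (f : Ω → α) (S : Finset α)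
    (hS : ∀ ω, μ ω ≠ 0 → f ω ∈ S) (t : ℝ) (ht : 0 < t) :
    Pw μ (fun ω => t < Su μ f ω) ≤ S.card / t := by
  refine le_trans (Pw_mono μ hμ ?_) (Pw_markov μ hμ (fun ω => 1 / pr μ f ω) ?_ ht (pre_exp μ hμ f S hS))
  · intro ω hω h
    rw [← pre_Su μ hμ f ω hω]
    exact lt_of_lt_of_le h (pre_le_two _)
  · intro ω hω
    have hp := e1_pr_pos μ f hμ ω hω
    positivity

/-- the local entropy is at most the logarithm of the number of subcells -/
theorem pre_ew_le (μ : Ω → ℝ) (hμ : ∀ ω, 0 ≤ μ ω) (c : ℕ → Ω → α) (N : ℝ) (hN0 : 0 < N) (R : ℕ)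
    (hN : Nb μ c N R) (l : ℕ) (ω : Ω) (hω : μ ω ≠ 0) : ew μ c R l ω ≤ Real.logb 2 N := by
  have hl : 0 < Real.log 2 := Real.log_pos (by norm_num)
  have h1 : ∀ ω', sw μ c R l ω' - Real.logb 2 N ≤ (2 ^ sw μ c R l ω' / N - 1) / Real.log 2 := by
    intro ω'
    rw [le_div_iff₀ hl]
    have h2 := Real.add_one_le_exp ((sw μ c R l ω' - Real.logb 2 N) * Real.log 2)
    have h3 : Real.exp ((sw μ c R l ω' - Real.logb 2 N) * Real.log 2) = 2 ^ sw μ c R l ω' / N := by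
      rw [mul_comm, ← Real.rpow_def_of_pos (by norm_num), Real.rpow_sub (by norm_num),
        Real.rpow_logb (by norm_num) (by norm_num) hN0]
    rw [h3] at h2
    linarith
  have h2 := cm_mono μ hμ (c l) ω (fun ω' => sw μ c R l ω' - Real.logb 2 N)
    (fun ω' => (1 / (N * Real.log 2)) * 2 ^ sw μ c R l ω' - 1 / Real.log 2) (fun ω' _ _ => by
      refine (h1 ω').trans (le_of_eq ?_)
      field_simp)
  rw [cm_sub, cm_sub, cm_mul, cm_const μ hμ (c l) ω hω, cm_const μ hμ (c l) ω hω] at h2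
  have h3 : cm μ (c l) ω (fun ω' => 2 ^ sw μ c R l ω') ≤ N := by
    refine le_trans (le_of_eq ?_) (hN l ω hω)
    unfold cm
    rw [sum_filter]
    apply sum_congr rfl
    intro ω' _
    by_cases h4 : μ ω' = 0
    · rw [if_neg (not_not.mpr h4)]
      unfold cw
      rw [h4]
      simp
    · rw [if_pos h4]
  have h4 : 1 / (N * Real.log 2) * cm μ (c l) ω (fun ω' => 2 ^ sw μ c R l ω') ≤ 1 / (N * Real.log 2) * N :=
    mul_le_mul_of_nonneg_left h3 (by positivity)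
  have h5 : 1 / (N * Real.log 2) * N = 1 / Real.log 2 := by field_simp
  have h6 : ew μ c R l ω = cm μ (c l) ω (fun ω' => sw μ c R l ω') := rfl
  rw [h6]
  linarith

theorem pre_Hh_step (μ : Ω → ℝ) (hμ : ∀ ω, 0 ≤ μ ω) (hm : ∑ ω, μ ω = 1) (c : ℕ → Ω → α) (R l : ℕ)
    (hN : Nb μ c (2 ^ R) R) : Hh μ (c (l + R)) ≤ Hh μ (c l) + R := by
  have h1 : ∑ ω, μ ω * ew μ c R l ω ≤ R := by
    calc _ ≤ ∑ ω, μ ω * R := by
          apply sum_le_sum
          intro ω _
          by_cases h0 : μ ω = 0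
          · rw [h0, zero_mul, zero_mul]
          · have := pre_ew_le μ hμ c (2 ^ R) (by positivity) R hN l ω h0
            rw [Real.logb_pow, Real.logb_self_eq_one (by norm_num), mul_one] at this
            exact mul_le_mul_of_nonneg_left this (hμ ω)
      _ = R := by rw [← sum_mul, hm, one_mul]
  have h2 : ∑ ω, μ ω * ew μ c R l ω = ∑ ω, μ ω * sw μ c R l ω := sum_cm μ hμ (c l) (sw μ c R l)
  have h3 : ∑ ω, μ ω * sw μ c R l ω = Hh μ (c (l + R)) - Hh μ (c l) := by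
    rw [pre_Hh μ hm, pre_Hh μ hm, ← sum_sub_distrib]
    exact sum_congr rfl (fun ω _ => by unfold sw; ring)
  linarith

theorem pre_Hh_cw (μ : Ω → ℝ) (hμ : ∀ ω, 0 ≤ μ ω) (f : Ω → α) (G : Ω → γ) (ω : Ω) (h0 : μ ω ≠ 0) :
    Hh (cw μ G ω) f = LH μ f G ω := by
  classical
  unfold LH
  rw [Hh_eq _ (cw_sum μ G hμ ω h0), ← Finset.sum_neg_distrib]
  refine Finset.sum_congr rfl fun ω' _ => ?_
  by_cases hc : cw μ G ω ω' = 0
  · simp [hc]
  obtain ⟨hG, h0'⟩ := cw_ne_zero μ G hc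
  have e1 : pr (cw μ G ω) f ω' = pr μ (fun ω' => (f ω', G ω')) ω' / pr μ G ω := by
    rw [e1_pr_eq, e1_pr_eq, Finset.sum_div]
    refine Finset.sum_congr rfl fun ω2 _ => ?_
    unfold cw
    by_cases k1 : f ω2 = f ω' <;> by_cases k2 : G ω2 = G ω <;> simp [k1, k2, hG]
  rw [e1, Real.logb_div (e1_pr_pos μ _ hμ ω' h0').ne' (e1_pr_pos μ G hμ ω h0).ne',
    e1_pr_atom μ G ω' ω hG]
  ring

/-! ### cells -/

omit [Fintype Ω] in
theorem pre_ref (μ : Ω → ℝ) (X : Ω → Fin 2 → ℝ) : Ref μ (fun l ω => cel l (X ω)) :=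
  fun l _ _ _ _ h => cel_step l h

omit [Fintype Ω] in
theorem pre_ref0 (μ : Ω → ℝ) (X : Ω → Fin 2 → ℝ) : Ref μ (fun l ω => fl l (X ω 0)) := by
  intro l ω ω' _ _ h
  exact den_fl_of l 1 _ _ h

theorem pre_sub (l R : ℕ) (v v' : Fin 2 → ℝ) (h : cel l v = cel l v') (i : Fin 2) :
    cel (l + R) v i ∈ Ico (2 ^ R * cel l v' i) (2 ^ R * (cel l v' i + 1)) := by
  have h1 := cel_fr R l v i
  have h2 : (0 : ℤ) ≤ cel R (fr l v) i := by
    show (0 : ℤ) ≤ ⌊(2 : ℝ) ^ R * Int.fract ((2 : ℝ) ^ l * v i)⌋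
    apply Int.floor_nonneg.mpr
    have := Int.fract_nonneg ((2 : ℝ) ^ l * v i)
    positivity
  have h3 : cel R (fr l v) i < 2 ^ R := by
    show ⌊(2 : ℝ) ^ R * Int.fract ((2 : ℝ) ^ l * v i)⌋ < 2 ^ R
    rw [Int.floor_lt]
    push_cast
    have := Int.fract_lt_one ((2 : ℝ) ^ l * v i)
    have h4 : (0 : ℝ) < 2 ^ R := by positivity
    nlinarith
  rw [← h, mem_Ico]
  constructor
  · linarith
  · rw [mul_add, mul_one]
    linarith

theorem pre_Nb (μ : Ω → ℝ) (hμ : ∀ ω, 0 ≤ μ ω) (X : Ω → Fin 2 → ℝ) (R : ℕ) :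
    Nb μ (fun l ω => cel l (X ω)) (4 ^ R) R := by
  classical
  apply Nb_card μ hμ _ (pre_ref μ X)
  intro l ω _
  refine ⟨Fintype.piFinset (fun i => Ico (2 ^ R * cel l (X ω) i) (2 ^ R * (cel l (X ω) i + 1))), ?_, ?_⟩
  · rw [Fintype.card_piFinset]
    have : ∀ i : Fin 2, (Ico (2 ^ R * cel l (X ω) i) (2 ^ R * (cel l (X ω) i + 1))).card = 2 ^ R := by
      intro i
      rw [Int.card_Ico]
      have e : 2 ^ R * (cel l (X ω) i + 1) - 2 ^ R * cel l (X ω) i = 2 ^ R := by ring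
      rw [e]
      norm_cast
    rw [prod_congr rfl (fun i _ => this i), prod_const, card_univ, Fintype.card_fin]
    push_cast
    rw [← pow_mul, mul_comm R 2, pow_mul]
    norm_num
  · intro ω' _ h
    rw [Fintype.mem_piFinset]
    exact fun i => pre_sub l R (X ω') (X ω) h i

theorem pre_Nb0 (μ : Ω → ℝ) (hμ : ∀ ω, 0 ≤ μ ω) (X : Ω → Fin 2 → ℝ) (R : ℕ) :
    Nb μ (fun l ω => fl l (X ω 0)) (2 ^ R) R := by
  classical
  apply Nb_card μ hμ _ (pre_ref0 μ X)
  intro l ω _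
  refine ⟨Ico (2 ^ R * fl l (X ω 0)) (2 ^ R * (fl l (X ω 0) + 1)), ?_, ?_⟩
  · rw [Int.card_Ico]
    have e : 2 ^ R * (fl l (X ω 0) + 1) - 2 ^ R * fl l (X ω 0) = 2 ^ R := by ring
    rw [e]
    have : ((2 : ℤ) ^ R).toNat = 2 ^ R := by norm_cast
    rw [this]
    push_cast
    exact le_rfl
  · intro ω' _ h
    have h1 := pre_sub l R (fun _ => X ω' 0) (fun _ => X ω 0) (by funext i; exact h) 0
    exact h1

theorem pre_range (N : ℕ) (x : ℝ) (hx : |x| ≤ 32) : fl N x ∈ Icc (-(32 * 2 ^ N) : ℤ) (32 * 2 ^ N) := by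
  obtain ⟨h1, h2⟩ := abs_le.mp hx
  have h3 : (0 : ℝ) < 2 ^ N := by positivity
  unfold fl
  rw [mem_Icc]
  constructor
  · rw [Int.le_floor]
    push_cast
    nlinarith
  · have : (⌊(2 : ℝ) ^ N * x⌋ : ℝ) ≤ 32 * 2 ^ N := (Int.floor_le _).trans (by nlinarith)
    exact_mod_cast this

theorem pre_card (N : ℕ) : ((Icc (-(32 * 2 ^ N) : ℤ) (32 * 2 ^ N)).card : ℝ) ≤ 2 ^ (N + 7) := by
  rw [Int.card_Icc]
  have e : (32 * 2 ^ N + 1 - -(32 * 2 ^ N) : ℤ).toNat = 64 * 2 ^ N + 1 := by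
    have : (32 * 2 ^ N + 1 - -(32 * 2 ^ N) : ℤ) = ((64 * 2 ^ N + 1 : ℕ) : ℤ) := by push_cast; ring
    rw [this, Int.toNat_natCast]
  rw [e]
  push_cast
  have : (1 : ℝ) ≤ 2 ^ N := one_le_pow₀ (by norm_num)
  rw [pow_add]
  nlinarith

end

theorem st_PRE : ST_LLN → ST_PRE := by
  classical
  intro _ ε hε ρ hρ
  have hρ' : (1 : ℝ) ≤ ρ := by exact_mod_cast hρ
  set δ : ℝ := ε / (4 * ρ) with hδ
  have hδ0 : 0 < δ := by positivity
  obtain ⟨J, hJ⟩ : ∃ J : ℕ, 2 / δ + 1 < J := exists_nat_gt _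
  have hJ0 : (0 : ℝ) < J := by
    have : 0 < 2 / δ := by positivity
    linarith
  set η : ℝ := δ * ε / (4 * J) with hη
  have hη0 : 0 < η := by positivity
  set M : ℝ := (2 ^ (ρ + 7)) ^ 2 with hM
  have hM0 : 0 ≤ M := by positivity
  set C : ℝ := 2 * ρ * (5 * 4 ^ ρ) with hC
  have hC0 : 0 ≤ C := by positivity
  obtain ⟨n0, hn0⟩ : ∃ n0 : ℕ, 2 / δ + 4 * M / (δ * ε) + 32 * J / (δ * ε) + 4 * J * C / (δ ^ 2 * ε) + 1 < n0 :=
    exists_nat_gt _
  refine ⟨η, hη0, n0, ?_⟩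
  intro n hn Ω _ μ X hμ hm hX hH
  have hm' : ∑ ω, μ ω = 1 := hm
  have hn' : (n0 : ℝ) ≤ n := by exact_mod_cast hn
  have a1 : 0 ≤ 2 / δ := by positivity
  have a2 : 0 ≤ 4 * M / (δ * ε) := by positivity
  have a3 : 0 ≤ 32 * J / (δ * ε) := by positivity
  have a4 : 0 ≤ 4 * J * C / (δ ^ 2 * ε) := by positivity
  have hn1 : (1 : ℝ) ≤ n := by linarith
  have hnp : (0 : ℝ) < n := by linarith
  have b1 : 2 ≤ δ * n := by
    have : 2 / δ ≤ n := by linarith
    rw [div_le_iff₀ hδ0] at this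
    linarith
  have b2 : M / (δ * n) ≤ ε / 4 := by
    have : 4 * M / (δ * ε) ≤ n := by linarith
    rw [div_le_iff₀ (by positivity)] at this
    rw [div_le_iff₀ (by positivity)]
    linarith
  have b3 : J * (8 / (δ * n)) ≤ ε / 4 := by
    have : 32 * J / (δ * ε) ≤ n := by linarith
    rw [div_le_iff₀ (by positivity)] at this
    rw [← mul_div_assoc, div_le_iff₀ (by positivity)]
    linarith
  have b4 : J * (n * C / (δ * n) ^ 2) ≤ ε / 4 := by
    have : 4 * J * C / (δ ^ 2 * ε) ≤ n := by linarith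
    rw [div_le_iff₀ (by positivity)] at this
    rw [← mul_div_assoc, div_le_iff₀ (by positivity)]
    have h1 := mul_le_mul_of_nonneg_right this hnp.le
    have e1 : ε / 4 * (δ * n) ^ 2 = n * (δ ^ 2 * ε) * n / 4 := by ring
    rw [e1]
    have e2 : J * (n * C) = 4 * J * C * n / 4 := by ring
    rw [e2]
    linarith
  have b5 : J * (η / δ) = ε / 4 := by
    rw [hη]
    field_simp
  -- the grid
  set q : ℕ := ⌊δ * n⌋₊ with hq
  have hq1 : (q : ℝ) ≤ δ * n := Nat.floor_le (by positivity)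
  have hq2 : δ * n < q + 1 := Nat.lt_floor_add_one _
  have hq3 : 1 ≤ q := by
    have : (1 : ℝ) < q := by linarith
    have : (1 : ℕ) < q := by exact_mod_cast this
    omega
  have hq4 : δ / 2 * n ≤ q := by linarith
  have hjJ : ∀ j : ℕ, j * q ≤ n → j < J := by
    intro j hj
    have h1 : (j : ℝ) * q ≤ n := by exact_mod_cast hj
    have h2 : (j : ℝ) * (δ / 2 * n) ≤ n := by
      have := mul_le_mul_of_nonneg_left hq4 (Nat.cast_nonneg j : (0 : ℝ) ≤ (j : ℝ))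
      linarith
    have h3 : (j : ℝ) * (δ / 2) ≤ 1 := by
      have : (j : ℝ) * (δ / 2) * n ≤ 1 * n := by linarith
      exact le_of_mul_le_mul_right this hnp
    have h4 : (j : ℝ) ≤ 2 / δ := by
      rw [le_div_iff₀ hδ0]
      linarith
    have h5 : (j : ℝ) < J := by linarith
    exact_mod_cast h5
  have hc := pre_ref μ X
  have hf := pre_ref0 μ X
  have hNb := pre_Nb μ hμ X ρ
  -- first event
  have hA : Pw μ (fun ω => δ * n < Su μ (fun ω' => cel ρ (X ω')) ω) ≤ ε / 4 := by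
    refine le_trans (pre_up μ hμ _ (Fintype.piFinset (fun _ : Fin 2 => Icc (-(32 * 2 ^ ρ) : ℤ) (32 * 2 ^ ρ)))
      ?_ (δ * n) (by positivity)) (le_trans ?_ b2)
    · intro ω _
      rw [Fintype.mem_piFinset]
      exact fun i => pre_range ρ (X ω i) (hX ω i)
    · apply div_le_div_of_nonneg_right _ (by positivity)
      rw [Fintype.card_piFinset, prod_const, card_univ, Fintype.card_fin]
      push_cast
      exact pow_le_pow_left₀ (by positivity) (pre_card ρ) 2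
  -- the events at the grid points
  set E : ℕ → Ω → Prop := fun j ω => j * q ≤ n ∧
    (Su μ (fun ω' => fl (j * q) (X ω' 0)) ω < (j * q : ℕ) + 7 - δ * n ∨
      δ * n < |∑ l ∈ Ico 0 (j * q), dw μ (fun l ω => cel l (X ω)) ρ l ω|) with hE
  have hEj : ∀ j, j < J → Pw μ (E j) ≤ (8 / (δ * n) + η / δ) + n * C / (δ * n) ^ 2 := by
    intro j _
    by_cases hj : j * q ≤ n
    · refine le_trans (Pw_mono μ hμ (B := fun ω =>
        Su μ (fun ω' => fl (j * q) (X ω' 0)) ω < ((j * q : ℕ) + 7 : ℝ) - δ * n ∨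
        δ * n < |∑ l ∈ Ico 0 (j * q), dw μ (fun l ω => cel l (X ω)) ρ l ω|) ?_)
        (le_trans (Pw_or μ hμ _ _) (add_le_add ?_ ?_))
      · intro ω _ h
        exact h.2
      · refine le_trans (pre_low μ hμ hm' _ (Icc (-(32 * 2 ^ (j * q)) : ℤ) (32 * 2 ^ (j * q))) ?_
          ((j * q : ℕ) + 7) (7 + η * n) (δ * n) ?_ (by positivity) ?_) (le_of_eq ?_)
        · intro ω _
          exact pre_range _ _ (hX ω 0)
        · refine (pre_card (j * q)).trans (le_of_eq ?_)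
          rw [← Real.rpow_natCast]
          push_cast
          rfl
        · obtain ⟨R, hR⟩ := Nat.exists_eq_add_of_le hj
          have h1 := pre_Hh_step μ hμ hm' (fun l ω => fl l (X ω 0)) R (j * q) (pre_Nb0 μ hμ X R)
          rw [← hR] at h1
          have h2 : (n : ℝ) = (j * q : ℕ) + (R : ℝ) := by
            exact_mod_cast hR
          have h3 : (1 - η) * n ≤ Hh μ (fun ω => fl n (X ω 0)) := hH
          have h4 : Hh μ (fun ω => fl n (X ω 0)) ≤ Hh μ (fun ω => fl (j * q) (X ω 0)) + R := h1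
          have h5 : (1 - η) * n = n - η * n := by ring
          linarith
        · field_simp
          ring
      · refine le_trans (cheb μ hμ hm' _ hc (4 ^ ρ) (by positivity) ρ hNb 0 (j * q) (δ * n) (by positivity)) ?_
        apply div_le_div_of_nonneg_right _ (by positivity)
        apply mul_le_mul_of_nonneg_right _ hC0
        rw [Nat.sub_zero]
        exact_mod_cast hj
    · refine le_trans (Pw_mono μ hμ (B := fun _ => False) ?_) ?_
      · intro ω _ h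
        exact hj h.1
      · unfold Pw
        simp only [if_false, sum_const_zero]
        positivity
  have hU := den_union μ hμ _ E J _ _ hA hEj
  refine le_trans (Pw_mono μ hμ ?_) (hU.trans ?_)
  · intro ω hω hbad
    by_contra hgood
    push Not at hgood
    obtain ⟨g1, g2⟩ := hgood
    obtain ⟨N, hN, hlt⟩ := hbad
    have hjn : N / q * q ≤ N := Nat.div_mul_le_self N q
    have hjn2 := Nat.lt_div_mul_add (show 0 < q from hq3) (a := N)
    have hj1 : N / q * q ≤ n := hjn.trans hN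
    have g3 := g2 (N / q) (hjJ _ hj1)
    rw [hE] at g3
    simp only [not_and, not_or, not_lt] at g3
    obtain ⟨g4, g5⟩ := g3 hj1
    generalize N / q * q = N' at *
    have eLe : ∀ l, eL μ X ρ l ω = ew μ (fun l ω => cel l (X ω)) ρ l ω := by
      intro l
      rw [eL_eq, pre_Hh_cw μ hμ _ _ ω hω]
      exact LH_eq_ew μ hμ (fun l ω => cel l (X ω)) hc ρ l ω
    have h1 : ∑ l ∈ range N', eL μ X ρ l ω ≤ ∑ l ∈ range N, eL μ X ρ l ω :=
      sum_le_sum_of_subset_of_nonneg (by intro l; simp only [mem_range]; omega)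
        (fun l _ _ => slo_eL_nonneg μ hμ X ρ l ω)
    have h2 : ∑ l ∈ Ico 0 N', dw μ (fun l ω => cel l (X ω)) ρ l ω =
        ∑ l ∈ Ico 0 N', (Su μ (fun ω' => cel (l + ρ) (X ω')) ω - Su μ (fun ω' => cel l (X ω')) ω) -
          ∑ l ∈ range N', eL μ X ρ l ω := by
      rw [range_eq_Ico, ← sum_sub_distrib]
      apply sum_congr rfl
      intro l _
      rw [eLe]
      rfl
    have h3 := den_tele (fun l => Su μ (fun ω' => cel l (X ω')) ω) ρ 0 N' (Nat.zero_le _)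
    simp only [Nat.zero_add] at h3
    rw [h3] at h2
    have h4 : ∑ i ∈ range ρ, (Su μ (fun ω' => cel N' (X ω')) ω - Su μ (fun ω' => cel ρ (X ω')) ω) ≤
        ∑ i ∈ range ρ, (Su μ (fun ω' => cel (N' + i) (X ω')) ω - Su μ (fun ω' => cel i (X ω')) ω) := by
      apply sum_le_sum
      intro i hi
      rw [mem_range] at hi
      have k1 := Su_le μ hμ (fun l ω => cel l (X ω)) hc (Nat.le_add_right N' i) ω hω
      have k2 := Su_le μ hμ (fun l ω => cel l (X ω)) hc hi.le ω hω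
      linarith
    rw [sum_const, card_range, nsmul_eq_mul] at h4
    have h5 : Su μ (fun ω' => fl N' (X ω' 0)) ω ≤ Su μ (fun ω' => cel N' (X ω')) ω :=
      Su_mono μ hμ _ _ ω hω (fun ω' _ h => congrFun h 0)
    have h6 := (abs_le.mp g5).2
    have h7 : (N : ℝ) ≤ N' + q := by
      have : N ≤ N' + q := by omega
      exact_mod_cast this
    have h8 : (ρ : ℝ) * (N - 3 * (δ * n)) ≤
        ρ * (Su μ (fun ω' => cel N' (X ω')) ω - Su μ (fun ω' => cel ρ (X ω')) ω) := by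
      apply mul_le_mul_of_nonneg_left _ (by linarith)
      linarith
    have h9 : (ρ : ℝ) * (3 * (δ * n)) + δ * n ≤ ε * n := by
      have : 4 * ρ * δ = ε := by
        rw [hδ]
        field_simp
      have k : δ * n ≤ ρ * (δ * n) := by
        have : 0 < δ * n := by positivity
        nlinarith
      have k2 : 4 * (ρ * (δ * n)) = ε * n := by
        rw [← this]
        ring
      linarith
    linarith
  · have e : (J : ℝ) * ((8 / (δ * n) + η / δ) + n * C / (δ * n) ^ 2) =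
        J * (8 / (δ * n)) + J * (η / δ) + J * (n * C / (δ * n) ^ 2) := by ring
    rw [e]
    linarith

end Pool.Agent.Helper92.W
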